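import Pool.Agent.R871.SG.FamA

/-!
Entire functions of slow growth without zeros are constant.
-/

set_option autoImplicit false

namespace Pool.Agent.N634.SH

open MvPolynomial Filter Topology Set Metric
open Pool.Agent.R871.SG

/-- An entire function without zeros is the exponential of an entire function. -/
theorem exists_log {g : ℂ → ℂ} (hg : Differentiable ℂ g) (h0 : ∀ z, g z ≠ 0) :
    ∃ h : ℂ → ℂ, Differentiable ℂ h ∧ h 0 = 0 ∧ ∀ z, g z = g 0 * Complex.exp (h z) := by
  have hd : Differentiable ℂ fun z => deriv g z / g z := by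
    intro z
    exact ((hg.contDiff (n := 2)).differentiable_deriv_two z).div (hg z) (h0 z)
  obtain ⟨h, hh0, hh⟩ := hd.isExactOn_univ.with_val_at 0 0
  have hh' : ∀ z, HasDerivAt h (deriv g z / g z) z := fun z => hh z (mem_univ z)
  refine ⟨h, fun z => (hh' z).differentiableAt, hh0, fun z => ?_⟩
  have hF : ∀ z, HasDerivAt (fun z => g z * Complex.exp (-h z)) 0 z := by
    intro z
    have h1 : HasDerivAt (fun z => g z * Complex.exp (-h z)) (deriv g z * Complex.exp (-h z) +
        g z * (Complex.exp (-h z) * -(deriv g z / g z))) z :=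
      (hg z).hasDerivAt.mul ((hh' z).neg.cexp)
    have h2 : deriv g z * Complex.exp (-h z) +
        g z * (Complex.exp (-h z) * -(deriv g z / g z)) = 0 := by
      have h3 : g z * (deriv g z / g z) = deriv g z := mul_div_cancel₀ _ (h0 z)
      linear_combination -Complex.exp (-h z) * h3
    rw [h2] at h1
    exact h1
  have h2 : g z * Complex.exp (-h z) = g 0 * Complex.exp (-h 0) :=
    is_const_of_deriv_eq_zero (fun z => (hF z).differentiableAt) (fun z => (hF z).deriv) z 0
  rw [hh0, neg_zero, Complex.exp_zero, mul_one] at h2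
  rw [← h2, mul_assoc, ← Complex.exp_add, neg_add_cancel, Complex.exp_zero, mul_one]

/-- A zero-free entire function which grows slowly along a sequence of radii is constant. -/
theorem unit_const {g : ℂ → ℂ} (hg : Differentiable ℂ g) (h0 : ∀ z, g z ≠ 0) (C D : ℝ)
    (hs : ∀ R : ℝ, ∃ r > R, ∀ z, ‖z‖ ≤ r → Real.log ‖g z‖ ≤ C + D * Real.sqrt r) (z : ℂ) :
    g z = g 0 := by
  obtain ⟨h, hh, hh0, hgh⟩ := exists_log hg h0
  have hre : ∀ z, (h z).re = Real.log ‖g z‖ - Real.log ‖g 0‖ := by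
    intro z
    rw [hgh z, norm_mul, Complex.norm_exp, Real.log_mul (norm_ne_zero_iff.2 (h0 0))
      (Real.exp_ne_zero _), Real.log_exp]
    ring
  set C' : ℝ := |C| + |Real.log ‖g 0‖| + 1 with hC'
  have hC0 : 0 < C' := by positivity
  have hb : ∀ R : ℝ, ∃ r > R, ‖h z‖ ≤ 2 * (C' + |D| * Real.sqrt r) * ‖z‖ / (r - ‖z‖) := by
    intro R
    obtain ⟨r, hr, h1⟩ := hs (max R (max ‖z‖ 0))
    have hr1 : R < r := lt_of_le_of_lt (le_max_left _ _) hr
    have hr2 : ‖z‖ < r := lt_of_le_of_lt ((le_max_left _ _).trans (le_max_right _ _)) hr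
    have hr0 : 0 < r := lt_of_le_of_lt ((le_max_right _ _).trans (le_max_right _ _)) hr
    refine ⟨r, hr1, Complex.borelCaratheodory_zero (f := h) (R := r)
      (M := C' + |D| * Real.sqrt r) (by positivity) hh.differentiableOn ?_ hr0
      (mem_ball_zero_iff.2 hr2) hh0⟩
    intro w hw
    have h2 := h1 w (mem_ball_zero_iff.1 hw).le
    change (h w).re ≤ _
    rw [hre, hC']
    have h3 : D * Real.sqrt r ≤ |D| * Real.sqrt r := by
      gcongr
      exact le_abs_self D
    have h4 := le_abs_self C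
    have h5 := neg_abs_le (Real.log ‖g 0‖)
    linarith
  have hlim : Tendsto (fun r : ℝ => 2 * (C' + |D| * Real.sqrt r) * ‖z‖ / (r - ‖z‖)) atTop
      (𝓝 0) := by
    have h1 : ∀ᶠ r : ℝ in atTop, 2 * (C' + |D| * Real.sqrt r) * ‖z‖ / (r - ‖z‖) ≤
        (4 * (C' + |D|) * ‖z‖) * (Real.sqrt r)⁻¹ := by
      filter_upwards [eventually_ge_atTop (1 : ℝ), eventually_ge_atTop (2 * ‖z‖),
        eventually_gt_atTop ‖z‖] with r h1 h2 h3
      have hs1 : 1 ≤ Real.sqrt r := Real.one_le_sqrt.2 h1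
      have hs0 : 0 < Real.sqrt r := by linarith
      have hs2 : Real.sqrt r * Real.sqrt r = r := Real.mul_self_sqrt (by linarith)
      rw [div_le_iff₀ (by linarith)]
      have h4 : r / 2 ≤ r - ‖z‖ := by linarith
      have h5 : C' + |D| * Real.sqrt r ≤ (C' + |D|) * Real.sqrt r := by
        nlinarith
      have h6 : (4 * (C' + |D|) * ‖z‖) * (Real.sqrt r)⁻¹ * (r / 2) =
          2 * ((C' + |D|) * Real.sqrt r) * ‖z‖ := by
        field_simp
        nlinarith [hs2]
      calc 2 * (C' + |D| * Real.sqrt r) * ‖z‖ ≤ 2 * ((C' + |D|) * Real.sqrt r) * ‖z‖ := by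
            gcongr
        _ = (4 * (C' + |D|) * ‖z‖) * (Real.sqrt r)⁻¹ * (r / 2) := h6.symm
        _ ≤ (4 * (C' + |D|) * ‖z‖) * (Real.sqrt r)⁻¹ * (r - ‖z‖) := by
            gcongr
    have h2 : Tendsto (fun r : ℝ => (4 * (C' + |D|) * ‖z‖) * (Real.sqrt r)⁻¹) atTop (𝓝 0) := by
      have := (tendsto_inv_atTop_zero.comp Real.tendsto_sqrt_atTop).const_mul
        (4 * (C' + |D|) * ‖z‖)
      simpa using this
    refine tendsto_of_tendsto_of_tendsto_of_le_of_le' tendsto_const_nhds h2 ?_ h1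
    filter_upwards [eventually_gt_atTop ‖z‖] with r hr
    have : 0 < r - ‖z‖ := by linarith
    positivity
  have hz : h z = 0 := by
    rw [← norm_le_zero_iff]
    refine le_of_forall_pos_le_add fun ε hε => ?_
    obtain ⟨R, hR⟩ := eventually_atTop.1 (hlim.eventually (gt_mem_nhds hε))
    obtain ⟨r, hr, h1⟩ := hb R
    rw [zero_add]
    exact h1.trans (hR r hr.le).le
  rw [hgh z, hz, Complex.exp_zero, mul_one]

/-- The smaller one of `φ` and the square root. -/
theorem grows_min {φ : ℝ → ℝ} (hφ : Grows φ) : Grows fun r => min (φ r) (Real.sqrt r) := by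
  unfold Grows at *
  have h1 : Tendsto (fun r : ℝ => Real.sqrt r / Real.log r) atTop atTop := by
    have h2 : Tendsto (fun r : ℝ => Real.log r / r ^ (1 / 2 : ℝ)) atTop (𝓝 0) :=
      (isLittleO_log_rpow_atTop (by norm_num)).tendsto_div_nhds_zero
    have h3 : Tendsto (fun r : ℝ => (Real.log r / r ^ (1 / 2 : ℝ))⁻¹) atTop atTop := by
      refine Tendsto.inv_tendsto_nhdsGT_zero ?_
      rw [tendsto_nhdsWithin_iff]
      refine ⟨h2, ?_⟩
      filter_upwards [eventually_gt_atTop (1 : ℝ)] with r hr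
      have := Real.log_pos hr
      have h4 : 0 < r ^ (1 / 2 : ℝ) := Real.rpow_pos_of_pos (by linarith) _
      exact div_pos this h4
    refine h3.congr fun r => ?_
    rw [inv_div, Real.sqrt_eq_rpow]
  have h5 : Tendsto (fun r : ℝ => min (φ r / Real.log r) (Real.sqrt r / Real.log r)) atTop
      atTop := by
    refine tendsto_atTop.2 fun b => ?_
    filter_upwards [hφ.eventually_ge_atTop b, h1.eventually_ge_atTop b] with r h2 h3
    exact le_min h2 h3
  refine h5.congr' ?_
  filter_upwards [eventually_gt_atTop (1 : ℝ)] with r hr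
  rw [min_div_div_right (Real.log_pos hr).le]

theorem slow_mono {E : Type} [NormedAddCommGroup E] [NormedSpace ℂ E] {φ ψ : ℝ → ℝ}
    (h : ∀ r, ψ r ≤ φ r) {f : ℂ → E} (hf : Slow ψ f) : Slow φ f := by
  intro R
  obtain ⟨r, hr, h1⟩ := hf R
  exact ⟨r, hr, fun z hz => (h1 z hz).trans (h r)⟩

theorem poly_bound {n : ℕ} (G : MvPolynomial (Fin n) ℂ) : ∃ (A : ℝ) (k : ℕ), 0 < A ∧
    ∀ x : Fin n → ℂ, ‖eval x G‖ ≤ A * max 1 ‖x‖ ^ k := by
  induction G using MvPolynomial.induction_on with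
  | C a => exact ⟨‖a‖ + 1, 0, by positivity, fun x => by
      rw [eval_C, pow_zero, mul_one]
      linarith⟩
  | add p q hp hq =>
    obtain ⟨A, k, hA, h1⟩ := hp
    obtain ⟨B, l, hB, h2⟩ := hq
    refine ⟨A + B, max k l, by positivity, fun x => ?_⟩
    have h3 : 1 ≤ max 1 ‖x‖ := le_max_left _ _
    have h4 : A * max 1 ‖x‖ ^ k ≤ A * max 1 ‖x‖ ^ max k l := by
      gcongr
      exact le_max_left _ _
    have h5 : B * max 1 ‖x‖ ^ l ≤ B * max 1 ‖x‖ ^ max k l := by
      gcongr
      exact le_max_right _ _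
    calc ‖eval x (p + q)‖ ≤ ‖eval x p‖ + ‖eval x q‖ := by
          rw [map_add]
          exact norm_add_le _ _
      _ ≤ A * max 1 ‖x‖ ^ max k l + B * max 1 ‖x‖ ^ max k l := by
          linarith [h1 x, h2 x]
      _ = (A + B) * max 1 ‖x‖ ^ max k l := by ring
  | mul_X p i hp =>
    obtain ⟨A, k, hA, h1⟩ := hp
    refine ⟨A, k + 1, hA, fun x => ?_⟩
    have h3 : ‖x i‖ ≤ max 1 ‖x‖ := (norm_le_pi_norm x i).trans (le_max_right _ _)
    calc ‖eval x (p * X i)‖ = ‖eval x p‖ * ‖x i‖ := by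
          rw [map_mul, eval_X, norm_mul]
      _ ≤ (A * max 1 ‖x‖ ^ k) * max 1 ‖x‖ := by
          gcongr
          exact h1 x
      _ = A * max 1 ‖x‖ ^ (k + 1) := by ring

theorem poly_diff {n : ℕ} {f : ℂ → Fin n → ℂ} (hf : Differentiable ℂ f)
    (G : MvPolynomial (Fin n) ℂ) : Differentiable ℂ fun z => eval (f z) G := by
  induction G using MvPolynomial.induction_on with
  | C a => simp
  | add p q hp hq =>
    simp only [map_add]
    exact hp.add hq
  | mul_X p i hp =>
    simp only [map_mul, eval_X]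
    exact hp.mul (differentiable_pi.1 hf i)

/-- A polynomial of a slow curve, if it has no zeros, is constant. -/
theorem poly_const {n : ℕ} {φ : ℝ → ℝ} {f : ℂ → Fin n → ℂ} (hf : Differentiable ℂ f)
    (hs : Slow (fun r => min (φ r) (Real.sqrt r)) f) (G : MvPolynomial (Fin n) ℂ)
    (h0 : ∀ z, eval (f z) G ≠ 0) (z : ℂ) : eval (f z) G = eval (f 0) G := by
  obtain ⟨A, k, hA, hb⟩ := poly_bound G
  refine unit_const (poly_diff hf G) h0 (Real.log A) k (fun R => ?_) z
  obtain ⟨r, hr, h1⟩ := hs R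
  refine ⟨r, hr, fun w hw => ?_⟩
  have h2 : Real.log ‖f w‖ ≤ Real.sqrt r := (h1 w hw).trans (min_le_right _ _)
  have h3 : Real.log (max 1 ‖f w‖) ≤ Real.sqrt r := by
    rcases le_total ‖f w‖ 1 with h | h
    · rw [max_eq_left h, Real.log_one]
      exact Real.sqrt_nonneg r
    · rw [max_eq_right h]
      exact h2
  have h4 : 0 < max 1 ‖f w‖ := lt_of_lt_of_le one_pos (le_max_left _ _)
  have h5 : 0 < ‖eval (f w) G‖ := norm_pos_iff.2 (h0 w)
  calc Real.log ‖eval (f w) G‖ ≤ Real.log (A * max 1 ‖f w‖ ^ k) := Real.log_le_log h5 (hb _)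
    _ = Real.log A + k * Real.log (max 1 ‖f w‖) := by
        rw [Real.log_mul hA.ne' (pow_pos h4 k).ne', Real.log_pow]
    _ ≤ Real.log A + k * Real.sqrt r := by gcongr

end Pool.Agent.N634.SH
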