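import Pool.Agent.V1153.GH.Hyp
import Pool.Agent.R845.US.Null
import Pool.Agent.R871.SG.FamA

/-!
Entire curves of slow growth in general complete intersections: families of coefficients.
-/

set_option autoImplicit false

namespace Pool.Agent.N634.SH

open MvPolynomial MeasureTheory Filter Topology
open Pool.Agent.V1153.UG Pool.Agent.V1153.GH Pool.Agent.R871.SG
open Pool.Agent.TH182.VD (CI)

variable {n q : ℕ}

/-- the exponents of the monomials of degree `d` in `n + 1` variables -/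
abbrev Mon (n d : ℕ) : Type := ↥((Finset.univ : Finset (Fin (n + 1))).finsuppAntidiag d)

/-- the indices of the coefficients of `q` forms of the degrees `d i` in `n + 1` variables -/
abbrev Ix (n : ℕ) (d : Fin q → ℕ) : Type := (i : Fin q) × Mon n (d i)

/-- the `i`-th form with the coefficients `c` -/
noncomputable def form {d : Fin q → ℕ} (c : Ix n d → ℂ) (i : Fin q) :
    MvPolynomial (Fin (n + 1)) ℂ :=
  ∑ m : Mon n (d i), monomial m.1 (c ⟨i, m⟩)

variable {d : Fin q → ℕ}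

theorem form_hom (c : Ix n d → ℂ) (i : Fin q) : (form c i).IsHomogeneous (d i) := by
  unfold form
  refine IsHomogeneous.sum _ _ _ fun u _ => ?_
  apply isHomogeneous_monomial
  rw [Finsupp.degree_eq_sum]
  exact mem_anti.1 u.2

theorem mem_of_deg {e : ℕ} {α : Fin (n + 1) →₀ ℕ} (h : α.degree = e) :
    α ∈ (Finset.univ : Finset (Fin (n + 1))).finsuppAntidiag e := by
  rw [mem_anti, ← h, Finsupp.degree_eq_sum]

theorem coeff_form (c : Ix n d → ℂ) (i : Fin q) (m : Mon n (d i)) :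
    coeff m.1 (form c i) = c ⟨i, m⟩ := by
  classical
  unfold form
  rw [coeff_sum]
  simp only [coeff_monomial]
  rw [Finset.sum_eq_single m]
  · rw [if_pos rfl]
  · intro b _ hb
    rw [if_neg fun h => hb (Subtype.ext h)]
  · intro h
    exact absurd (Finset.mem_univ m) h

/-- comparison of the two index sets -/
def toIx (x : CI n d) : Ix n d := ⟨x.1, ⟨x.2.1, mem_of_deg x.2.2⟩⟩

theorem toIx_inj : Function.Injective (toIx (n := n) (d := d)) := by
  rintro ⟨i, a, ha⟩ ⟨j, b, hb⟩ h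
  unfold toIx at h
  rw [Sigma.mk.injEq] at h
  obtain ⟨rfl, h⟩ := h
  rw [heq_eq_eq, Subtype.mk.injEq] at h
  subst h
  rfl

theorem eval_form_pc (c : Ix n d → ℂ) (i : Fin q) (P : Fin (n + 1) → Polynomial ℂ) (z : ℂ) :
    (aeval P (form c i)).eval z = eval (pc P z) (form c i) := by
  have h1 : (aeval P (form c i)).eval z =
      (Polynomial.evalRingHom z) (eval₂Hom (algebraMap ℂ (Polynomial ℂ)) P (form c i)) := rfl
  rw [h1, MvPolynomial.map_eval₂Hom]
  have h2 : (Polynomial.evalRingHom z).comp (algebraMap ℂ (Polynomial ℂ)) = RingHom.id ℂ := by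
    ext x
    simp
  rw [h2]
  rfl

/-- **No polynomial curves.** -/
theorem good_exists (n : ℕ) (d : Fin q → ℕ) (Z : Finset (Fin q))
    (hZ : 2 * n + 1 ≤ ∑ i, d i + Z.card) :
    ∃ Φ : ℕ → MvPolynomial (Ix n d) ℂ, (∀ N, Φ N ≠ 0) ∧
      ∀ c : Ix n d → ℂ, (∀ N, eval c (Φ N) ≠ 0) → ∀ b : Fin q → ℂ, (∀ i ∈ Z, b i = 0) →
        ∀ P : Fin (n + 1) → Polynomial ℂ, (∀ i z, eval (pc P z) (form c i) = b i) →
          ¬ NonConstLine (pc P) := by
  classical
  have hall : ∀ (N : ℕ) (Z' : Finset (Fin q)), ∃ Φ : MvPolynomial (CI n d) ℂ, Φ ≠ 0 ∧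
      (Z ⊆ Z' → ∀ F : Fin q → MvPolynomial (Fin (n + 1)) ℂ, (∀ i, (F i).IsHomogeneous (d i)) →
        eval (fun x : CI n d => coeff x.2.1 (F x.1)) Φ ≠ 0 →
        ∀ P, ¬ GmBdd (Ideal.span {G | ∃ i ∈ Z', G = F i}) (∏ i ∈ Finset.univ \ Z', F i) N P) := by
    intro N Z'
    by_cases hs : Z ⊆ Z'
    · obtain ⟨Φ, h1, h2⟩ := general (n := n) d Z' (by
        have := Finset.card_le_card hs
        omega) N
      exact ⟨Φ, h1, fun _ => h2⟩
    · exact ⟨1, one_ne_zero, fun h => absurd h hs⟩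
  choose Φ hΦ0 hΦ using hall
  refine ⟨fun N => ∏ Z' : Finset (Fin q), rename (toIx (n := n) (d := d)) (Φ N Z'),
    fun N => Finset.prod_ne_zero_iff.2 fun Z' _ =>
      (map_ne_zero_iff _ (rename_injective _ toIx_inj)).2 (hΦ0 N Z'), ?_⟩
  intro c hc b hb P hP hnc
  obtain ⟨z, w, j, k, hjk⟩ := hnc
  set Z' : Finset (Fin q) := Finset.univ.filter fun i => b i = 0 with hZ'
  set N : ℕ := ∑ j, (P j).natDegree with hN
  have hs : Z ⊆ Z' := fun i hi => by
    rw [hZ', Finset.mem_filter]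
    exact ⟨Finset.mem_univ i, hb i hi⟩
  have hae : ∀ i, aeval P (form c i) = Polynomial.C (b i) := by
    intro i
    refine Polynomial.funext fun z => ?_
    rw [eval_form_pc, hP, Polynomial.eval_C]
  refine hΦ N Z' hs (form c) (form_hom c) ?_ P ⟨?_, ?_, ?_, ?_⟩
  · have h1 := hc N
    rw [map_prod] at h1
    have h2 := (Finset.prod_ne_zero_iff.1 h1) Z' (Finset.mem_univ _)
    rw [eval_rename] at h2
    have h3 : (c ∘ toIx) = fun x : CI n d => coeff x.2.1 (form c x.1) := by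
      funext x
      exact (coeff_form c x.1 ⟨x.2.1, mem_of_deg x.2.2⟩).symm
    rw [h3] at h2
    exact h2
  · intro j
    exact Finset.single_le_sum (f := fun j => (P j).natDegree) (fun _ _ => Nat.zero_le _)
      (Finset.mem_univ j)
  · intro G hG _
    have h1 : Ideal.span {G | ∃ i ∈ Z', G = form c i} ≤
        RingHom.ker (aeval P : MvPolynomial (Fin (n + 1)) ℂ →ₐ[ℂ] Polynomial ℂ) := by
      rw [Ideal.span_le]
      rintro G ⟨i, hi, rfl⟩
      rw [hZ', Finset.mem_filter] at hi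
      change aeval P (form c i) = 0
      rw [hae, hi.2, map_zero]
    exact h1 hG
  · refine ⟨∏ i ∈ Finset.univ \ Z', b i, 0, Finset.prod_ne_zero_iff.2 fun i hi => ?_, ?_⟩
    · rw [Finset.mem_sdiff, hZ', Finset.mem_filter] at hi
      intro h
      exact hi.2 ⟨Finset.mem_univ i, h⟩
    · rw [map_prod, pow_zero, mul_one, map_prod]
      exact Finset.prod_congr rfl fun i _ => hae i
  · exact ⟨z, w, j, k, hjk⟩

/-- evaluation of a form -/
theorem eval_form (c : Ix n d → ℂ) (i : Fin q) (x : Fin (n + 1) → ℂ) :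
    eval x (form c i) = ∑ m : Mon n (d i), c ⟨i, m⟩ * ∏ j, x j ^ (m.1 j) := by
  unfold form
  rw [map_sum]
  refine Finset.sum_congr rfl fun m _ => ?_
  rw [eval_monomial, Finsupp.prod_fintype _ _ fun j => pow_zero _]

/-- **One growth condition for a countable union of closed sets of coefficients.** -/
theorem slow_closed (n : ℕ) (d : Fin q → ℕ) (Z : Finset (Fin q))
    (K : ℕ → Set (Ix n d → ℂ)) (hK : ∀ l, IsClosed (K l))
    (hgood : ∀ l, ∀ c ∈ K l, ∀ b : Fin q → ℂ, (∀ i ∈ Z, b i = 0) →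
        ∀ P : Fin (n + 1) → Polynomial ℂ, (∀ i z, eval (pc P z) (form c i) = b i) →
          ¬ NonConstLine (pc P)) :
    ∃ φ : ℝ → ℝ, Grows φ ∧ ∀ l, ∀ c ∈ K l, ∀ b : Fin q → ℂ, (∀ i ∈ Z, b i = 0) →
      ∀ f : ℂ → Fin (n + 1) → ℂ, Differentiable ℂ f → Slow φ f →
        (∀ i z, eval (f z) (form c i) = b i) → ¬ NonConstLine f := by
  classical
  set e := Fintype.equivFin (Ix n d ⊕ Fin q) with he
  set p := Fintype.card (Ix n d ⊕ Fin q) with hp
  set F : Fin q → MvPolynomial (Fin p ⊕ Fin (n + 1)) ℂ := fun i =>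
    ∑ m : Mon n (d i), X (Sum.inl (e (Sum.inl ⟨i, m⟩))) * ∏ j, X (Sum.inr j) ^ (m.1 j) -
      X (Sum.inl (e (Sum.inr i))) with hF
  have hFe : ∀ (t : Fin p → ℂ) (x : Fin (n + 1) → ℂ) (i : Fin q), eval (Sum.elim t x) (F i) =
      eval x (form (fun y => t (e (Sum.inl y))) i) - t (e (Sum.inr i)) := by
    intro t x i
    rw [eval_form, hF]
    simp only [map_sub, map_sum, map_mul, eval_X, map_prod, map_pow, Sum.elim_inl, Sum.elim_inr]
  set K' : ℕ → Set (Fin p → ℂ) := fun l =>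
    {t | (fun y => t (e (Sum.inl y))) ∈ K l} ∩ {t | ∀ i ∈ Z, t (e (Sum.inr i)) = 0} with hK'
  have hcl : ∀ l, IsClosed (K' l) := by
    intro l
    refine IsClosed.inter ?_ ?_
    · exact (hK l).preimage (continuous_pi fun y => continuous_apply _)
    · have h1 : {t : Fin p → ℂ | ∀ i ∈ Z, t (e (Sum.inr i)) = 0} =
          ⋂ i ∈ Z, {t : Fin p → ℂ | t (e (Sum.inr i)) = 0} := by
        ext t
        simp
      rw [h1]
      exact isClosed_biInter fun i _ => isClosed_eq (continuous_apply _) continuous_const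
  obtain ⟨φ, hφ, h⟩ := members_iff F K' hcl
  refine ⟨φ, hφ, fun l c hc b hb f hf hs hfe hnc => ?_⟩
  have h1 := (h Unit fun _ => (1 : MvPolynomial (Fin p ⊕ Fin (n + 1)) ℂ)).1 (by
    intro t ht P hP hnc
    exfalso
    obtain ⟨l, hl⟩ := Set.mem_iUnion.1 ht
    refine hgood l _ hl.1 (fun i => t (e (Sum.inr i))) hl.2 P (fun i z => ?_) hnc
    have h2 := hP z i
    rw [hFe] at h2
    exact sub_eq_zero.1 h2)
  set t : Fin p → ℂ := fun s => Sum.elim c b (e.symm s) with ht
  have ht1 : (fun y => t (e (Sum.inl y))) = c := by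
    funext y
    rw [ht]
    simp
  have ht2 : ∀ i, t (e (Sum.inr i)) = b i := by
    intro i
    rw [ht]
    simp
  have h3 := h1 t (Set.mem_iUnion.2 ⟨l, by
    refine ⟨?_, fun i hi => ?_⟩
    · change (fun y => t (e (Sum.inl y))) ∈ K l
      rw [ht1]
      exact hc
    · rw [ht2]
      exact hb i hi⟩) f hf hs (fun z i => by
        rw [hFe, ht1, ht2, hfe, sub_self]) hnc
  have h4 := h3 0 ()
  rw [map_one] at h4
  exact one_ne_zero h4

end Pool.Agent.N634.SH
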