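import Mathlib

/-!
A set whose complement is null contains a countable union of closed sets whose complement is null.
-/

set_option autoImplicit false

namespace Pool.Agent.N634.SH

open MeasureTheory Filter Topology Set
open scoped ENNReal

theorem closed_cover {σ : Type} [Fintype σ] (W : Set (σ → ℂ)) (hW : MeasurableSet W)
    (h0 : volume Wᶜ = 0) :
    ∃ K : ℕ → Set (σ → ℂ), (∀ l, IsClosed (K l)) ∧ (∀ l, K l ⊆ W) ∧ ∀ᵐ c : σ → ℂ, ∃ l, c ∈ K l := by
  have h1 : ∀ k m : ℕ, ∃ F : Set (σ → ℂ), F ⊆ W ∩ Metric.closedBall 0 (k : ℝ) ∧ IsClosed F ∧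
      volume ((W ∩ Metric.closedBall 0 (k : ℝ)) \ F) < ((m : ℝ≥0∞) + 1)⁻¹ := by
    intro k m
    refine (hW.inter Metric.isClosed_closedBall.measurableSet).exists_isClosed_sdiff_lt ?_ ?_
    · exact ne_top_of_le_ne_top (measure_closedBall_lt_top (x := (0 : σ → ℂ)) (r := (k : ℝ))).ne
        (measure_mono inter_subset_right)
    · rw [Ne, ENNReal.inv_eq_zero]
      exact ENNReal.add_ne_top.2 ⟨ENNReal.natCast_ne_top m, ENNReal.one_ne_top⟩
  choose F hF1 hF2 hF3 using h1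
  refine ⟨fun l => F (Nat.unpair l).1 (Nat.unpair l).2, fun l => hF2 _ _,
    fun l => (hF1 _ _).trans inter_subset_left, ?_⟩
  rw [ae_iff]
  have h2 : {c : σ → ℂ | ¬ ∃ l, c ∈ F (Nat.unpair l).1 (Nat.unpair l).2} ⊆
      Wᶜ ∪ ⋃ k : ℕ, ⋂ m : ℕ, (W ∩ Metric.closedBall 0 (k : ℝ)) \ F k m := by
    intro c hc
    by_cases hcW : c ∈ W
    · right
      obtain ⟨k, hk⟩ := exists_nat_ge (dist c 0)
      refine mem_iUnion.2 ⟨k, mem_iInter.2 fun m => ⟨⟨hcW, hk⟩, fun hcF => hc ?_⟩⟩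
      exact ⟨Nat.pair k m, by rw [Nat.unpair_pair]; exact hcF⟩
    · left
      exact hcW
  refine measure_mono_null h2 (measure_union_null h0 (measure_iUnion_null fun k => ?_))
  have h3 : ∀ m : ℕ, volume (⋂ m : ℕ, (W ∩ Metric.closedBall 0 (k : ℝ)) \ F k m) ≤
      ((m : ℝ≥0∞) + 1)⁻¹ := fun m =>
    (measure_mono (iInter_subset _ m)).trans (hF3 k m).le
  refine le_antisymm (ENNReal.le_of_forall_pos_le_add fun ε hε _ => ?_) bot_le
  obtain ⟨m, hm⟩ := ENNReal.exists_inv_nat_lt (ENNReal.coe_pos.2 hε).ne'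
  rw [zero_add]
  refine (h3 m).trans ((ENNReal.inv_le_inv.2 ?_).trans hm.le)
  exact le_self_add

end Pool.Agent.N634.SH
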