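import Pool.Agent.N634.SH.Base
import Pool.Agent.N634.SH.Cover
import Pool.Agent.N634.SH.Unit

/-!
Entire curves of slow growth in generic sections of a projective variety, with a boundary.
-/

set_option autoImplicit false

namespace Pool.Agent.N634.SH

open MvPolynomial MeasureTheory Filter Topology
open Pool.Agent.V1153.UG Pool.Agent.V1153.GH Pool.Agent.R871.SG
open Pool.Agent.TH182.VD (CI)
open Pool.Agent.TH143 (IsGmCurve)

variable {n q : ℕ} {d : Fin q → ℕ} {κ : Type}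

theorem eval_pc (P : Fin (n + 1) → Polynomial ℂ) (G : MvPolynomial (Fin (n + 1)) ℂ) (z : ℂ) :
    (aeval P G).eval z = eval (pc P z) G := by
  have h1 : (aeval P G).eval z =
      (Polynomial.evalRingHom z) (eval₂Hom (algebraMap ℂ (Polynomial ℂ)) P G) := rfl
  rw [h1, MvPolynomial.map_eval₂Hom]
  have h2 : (Polynomial.evalRingHom z).comp (algebraMap ℂ (Polynomial ℂ)) = RingHom.id ℂ := by
    ext x
    simp
  rw [h2]
  rfl

/-- **No polynomial curves in generic sections.** -/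
theorem good_gen (G : κ → MvPolynomial (Fin (n + 1)) ℂ) (hG : ∀ k, ∃ e, (G k).IsHomogeneous e)
    {m : ℕ} (hdim : Algebra.trdeg ℂ (MvPolynomial (Fin (n + 1)) ℂ ⧸ Ideal.span (Set.range G)) ≤ m + 1)
    (d : Fin q → ℕ) (Z : Finset (Fin q)) (hZ : 2 * m + 1 ≤ ∑ i, d i + Z.card) :
    ∃ Φ : ℕ → MvPolynomial (Ix n d) ℂ, (∀ N, Φ N ≠ 0) ∧
      ∀ c : Ix n d → ℂ, (∀ N, eval c (Φ N) ≠ 0) → ∀ b : Fin q → ℂ, (∀ i ∈ Z, b i = 0) →
        ∀ P : Fin (n + 1) → Polynomial ℂ, (∀ k z, eval (pc P z) (G k) = 0) →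
          (∀ i z, eval (pc P z) (form c i) = b i) → ¬ NonConstLine (pc P) := by
  classical
  obtain ⟨k₁, hk₁, hmain⟩ := Pool.Agent.TH182.VD.main (m := m) G hG hdim
  have hc : Countable (MvPolynomial (CI n d) k₁) := by
    have hfin : ∀ i, Finite {m : Fin (n + 1) →₀ ℕ // m.degree = d i} := by
      intro i
      have h1 : {m : Fin (n + 1) →₀ ℕ | m.degree = d i}.Finite := by
        refine (Finsupp.finite_of_degree_le (d i)).subset ?_
        intro m hm
        exact le_of_eq hm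
      exact h1
    have hfin' : Finite (CI n d) := inferInstance
    have := Finite.to_countable (α := CI n d)
    rw [← Cardinal.mk_le_aleph0_iff]
    refine MvPolynomial.cardinalMk_le_max.trans ?_
    rw [max_le_iff, max_le_iff]
    exact ⟨⟨Cardinal.mk_le_aleph0, Cardinal.mk_le_aleph0⟩, le_rfl⟩
  let T : Type := {Φ : MvPolynomial (CI n d) k₁ // Φ ≠ 0}
  have : Nonempty T := ⟨⟨1, one_ne_zero⟩⟩
  obtain ⟨e, he⟩ := exists_surjective_nat T
  refine ⟨fun N => rename (toIx (n := n) (d := d)) (map (algebraMap k₁ ℂ) (e N).1), fun N => ?_, ?_⟩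
  · refine (map_ne_zero_iff _ (rename_injective _ toIx_inj)).2 ?_
    exact (map_ne_zero_iff _ (map_injective _ (algebraMap k₁ ℂ).injective)).2 (e N).2
  intro c hc b hb P hPG hP hnc
  set Z' : Finset (Fin q) := Finset.univ.filter fun i => b i = 0 with hZ'
  have hs : Z ⊆ Z' := fun i hi => by
    rw [hZ', Finset.mem_filter]
    exact ⟨Finset.mem_univ i, hb i hi⟩
  have hcard := Finset.card_le_card hs
  have hae : ∀ i, aeval P (form c i) = Polynomial.C (b i) := by
    intro i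
    refine Polynomial.funext fun z => ?_
    rw [eval_form_pc, hP, Polynomial.eval_C]
  have haG : ∀ k, aeval P (G k) = 0 := by
    intro k
    refine Polynomial.funext fun z => ?_
    rw [eval_pc, hPG, Polynomial.eval_zero]
  have hind : AlgebraicIndependent k₁ (fun x : CI n d => coeff x.2.1 (form c x.1)) := by
    rw [algebraicIndependent_iff]
    intro Φ hΦ
    by_contra h0
    obtain ⟨j, hj⟩ := he ⟨Φ, h0⟩
    apply hc j
    change eval c (rename (toIx (n := n) (d := d)) (map (algebraMap k₁ ℂ) (e j).1)) = 0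
    rw [hj, eval_rename, eval_map]
    have h3 : (c ∘ toIx) = fun x : CI n d => coeff x.2.1 (form c x.1) := by
      funext x
      exact (coeff_form c x.1 ⟨x.2.1, mem_of_deg x.2.2⟩).symm
    rw [h3, ← aeval_def]
    exact hΦ
  set I : Ideal (MvPolynomial (Fin (n + 1)) ℂ) :=
    Ideal.span (Set.range (Sum.elim G fun i : {i // i ∈ Z'} => form c i.1)) with hI
  have hGm : GmBdd I (∏ i ∈ Finset.univ \ Z', form c i) (∑ j, (P j).natDegree) P := by
    obtain ⟨z, w, j, k, hjk⟩ := hnc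
    refine ⟨fun j => Finset.single_le_sum (f := fun j => (P j).natDegree)
      (fun _ _ => Nat.zero_le _) (Finset.mem_univ j), fun F hF _ => ?_, ?_, ⟨z, w, j, k, hjk⟩⟩
    · have h1 : I ≤ RingHom.ker (aeval P : MvPolynomial (Fin (n + 1)) ℂ →ₐ[ℂ] Polynomial ℂ) := by
        rw [hI, Ideal.span_le]
        rintro F ⟨i, rfl⟩
        rcases i with k | ⟨i, hi⟩
        · exact haG k
        · rw [hZ', Finset.mem_filter] at hi
          change aeval P (form c i) = 0
          rw [hae, hi.2, map_zero]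
      exact h1 hF
    · refine ⟨∏ i ∈ Finset.univ \ Z', b i, 0, Finset.prod_ne_zero_iff.2 fun i hi => ?_, ?_⟩
      · rw [Finset.mem_sdiff, hZ', Finset.mem_filter] at hi
        intro h
        exact hi.2 ⟨Finset.mem_univ i, h⟩
      · rw [map_prod, pow_zero, mul_one, map_prod]
        exact Finset.prod_congr rfl fun i _ => hae i
  have hQh : (∏ i ∈ Finset.univ \ Z', form c i).IsHomogeneous (∑ i ∈ Finset.univ \ Z', d i) :=
    IsHomogeneous.prod _ _ _ fun i _ => form_hom c i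
  obtain ⟨-, P', -, -, hpr⟩ := hGm.prim hQh
  refine hmain q d (form c) (form_hom c) hind Z' (by omega) P' ⟨fun t _ => hpr.ne t,
    fun t ht => ⟨fun i => ?_, hpr.off t ht⟩, ?_⟩
  · refine hpr.mem t _ (Ideal.subset_span ⟨i, rfl⟩) ?_
    rcases i with k | i
    · exact hG k
    · exact ⟨_, form_hom c i.1⟩
  · obtain ⟨s, t, j, k, hs, ht, hst⟩ := hpr.nc
    exact ⟨s, t, hs, ht, j, k, hst⟩

/-- **One growth condition for a countable union of closed sets of coefficients.** -/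
theorem slow_gen (G : κ → MvPolynomial (Fin (n + 1)) ℂ) (d : Fin q → ℕ) (Z : Finset (Fin q))
    (K : ℕ → Set (Ix n d → ℂ)) (hK : ∀ l, IsClosed (K l))
    (hgood : ∀ l, ∀ c ∈ K l, ∀ b : Fin q → ℂ, (∀ i ∈ Z, b i = 0) →
        ∀ P : Fin (n + 1) → Polynomial ℂ, (∀ k z, eval (pc P z) (G k) = 0) →
          (∀ i z, eval (pc P z) (form c i) = b i) → ¬ NonConstLine (pc P)) :
    ∃ φ : ℝ → ℝ, Grows φ ∧ ∀ l, ∀ c ∈ K l, ∀ b : Fin q → ℂ, (∀ i ∈ Z, b i = 0) →
      ∀ f : ℂ → Fin (n + 1) → ℂ, Differentiable ℂ f → Slow φ f →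
        (∀ k z, eval (f z) (G k) = 0) → (∀ i z, eval (f z) (form c i) = b i) →
        ¬ NonConstLine f := by
  classical
  set e := Fintype.equivFin (Ix n d ⊕ Fin q) with he
  set p := Fintype.card (Ix n d ⊕ Fin q) with hp
  set F : κ ⊕ Fin q → MvPolynomial (Fin p ⊕ Fin (n + 1)) ℂ := Sum.elim
    (fun k => rename Sum.inr (G k)) fun i =>
    ∑ m : Mon n (d i), X (Sum.inl (e (Sum.inl ⟨i, m⟩))) * ∏ j, X (Sum.inr j) ^ (m.1 j) -
      X (Sum.inl (e (Sum.inr i))) with hF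
  have hFe : ∀ (t : Fin p → ℂ) (x : Fin (n + 1) → ℂ) (i : Fin q),
      eval (Sum.elim t x) (F (Sum.inr i)) =
      eval x (form (fun y => t (e (Sum.inl y))) i) - t (e (Sum.inr i)) := by
    intro t x i
    rw [eval_form, hF]
    simp only [Sum.elim_inr, map_sub, map_sum, map_mul, eval_X, map_prod, map_pow, Sum.elim_inl]
  have hFG : ∀ (t : Fin p → ℂ) (x : Fin (n + 1) → ℂ) (k : κ),
      eval (Sum.elim t x) (F (Sum.inl k)) = eval x (G k) := by
    intro t x k
    rw [hF]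
    simp only [Sum.elim_inl]
    rw [eval_rename, Sum.elim_comp_inr]
  set K' : ℕ → Set (Fin p → ℂ) := fun l =>
    {t | (fun y => t (e (Sum.inl y))) ∈ K l} ∩ {t | ∀ i ∈ Z, t (e (Sum.inr i)) = 0} with hK'
  have hcl : ∀ l, IsClosed (K' l) := by
    intro l
    refine IsClosed.inter ?_ ?_
    · exact (hK l).preimage (continuous_pi fun y => continuous_apply _)
    · have h1 : {t : Fin p → ℂ | ∀ i ∈ Z, t (e (Sum.inr i)) = 0} =
          ⋂ i ∈ Z, {t : Fin p → ℂ | t (e (Sum.inr i)) = 0} := by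
        ext t
        simp
      rw [h1]
      exact isClosed_biInter fun i _ => isClosed_eq (continuous_apply _) continuous_const
  obtain ⟨φ, hφ, h⟩ := members_iff F K' hcl
  refine ⟨φ, hφ, fun l c hc b hb f hf hs hfG hfe hnc => ?_⟩
  have h1 := (h Unit fun _ => (1 : MvPolynomial (Fin p ⊕ Fin (n + 1)) ℂ)).1 (by
    intro t ht P hP hnc
    exfalso
    obtain ⟨l, hl⟩ := Set.mem_iUnion.1 ht
    refine hgood l _ hl.1 (fun i => t (e (Sum.inr i))) hl.2 P (fun k z => ?_) (fun i z => ?_) hnc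
    · have h2 := hP z (Sum.inl k)
      rwa [hFG] at h2
    · have h2 := hP z (Sum.inr i)
      rw [hFe] at h2
      exact sub_eq_zero.1 h2)
  set t : Fin p → ℂ := fun s => Sum.elim c b (e.symm s) with ht
  have ht1 : (fun y => t (e (Sum.inl y))) = c := by
    funext y
    rw [ht]
    simp
  have ht2 : ∀ i, t (e (Sum.inr i)) = b i := by
    intro i
    rw [ht]
    simp
  have h3 := h1 t (Set.mem_iUnion.2 ⟨l, by
    refine ⟨?_, fun i hi => ?_⟩
    · change (fun y => t (e (Sum.inl y))) ∈ K l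
      rw [ht1]
      exact hc
    · rw [ht2]
      exact hb i hi⟩) f hf hs (fun z i => by
        rcases i with k | i
        · rw [hFG, hfG]
        · rw [hFe, ht1, ht2, hfe, sub_self]) hnc
  have h4 := h3 0 ()
  rw [map_one] at h4
  exact one_ne_zero h4

/-- All entire curves of the growth `φ`, given by entire functions `f`, in the complement of the
hypersurfaces `F_i = 0`, `i` not in `Z`, in the intersection of the variety `G = 0` and of the
hypersurfaces `F_i = 0`, `i` in `Z`, are constant; `F` are the forms with the coefficients `c`. -/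
def AllConstIn (G : κ → MvPolynomial (Fin (n + 1)) ℂ) (φ : ℝ → ℝ) (Z : Finset (Fin q))
    (c : Ix n d → ℂ) : Prop :=
  ∀ f : ℂ → Fin (n + 1) → ℂ, Differentiable ℂ f → Slow φ f → (∀ k z, eval (f z) (G k) = 0) →
    (∀ i ∈ Z, ∀ z, eval (f z) (form c i) = 0) → (∀ i ∉ Z, ∀ z, eval (f z) (form c i) ≠ 0) →
    ∀ z w j k, f z j * f w k = f z k * f w j

theorem main_gen (G : κ → MvPolynomial (Fin (n + 1)) ℂ) (hG : ∀ k, ∃ e, (G k).IsHomogeneous e)
    {m : ℕ} (hdim : Algebra.trdeg ℂ (MvPolynomial (Fin (n + 1)) ℂ ⧸ Ideal.span (Set.range G)) ≤ m + 1)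
    (d : Fin q → ℕ) (Z : Finset (Fin q)) (hZ : 2 * m + 1 ≤ ∑ i, d i + Z.card) :
    ∃ Φ : ℕ → MvPolynomial (Ix n d) ℂ, (∀ N, Φ N ≠ 0) ∧
      (∀ K : ℕ → Set (Ix n d → ℂ), (∀ l, IsClosed (K l)) →
        (∀ l, ∀ c ∈ K l, ∀ N, eval c (Φ N) ≠ 0) →
        ∃ φ : ℝ → ℝ, Grows φ ∧ ∀ l, ∀ c ∈ K l, AllConstIn G φ Z c) ∧
      ∃ φ : ℝ → ℝ, Grows φ ∧ ∀ᵐ c : Ix n d → ℂ, AllConstIn G φ Z c := by
  classical
  obtain ⟨Φ, hΦ0, hΦ⟩ := good_gen G hG hdim d Z hZ
  have h1 : ∀ K : ℕ → Set (Ix n d → ℂ), (∀ l, IsClosed (K l)) →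
        (∀ l, ∀ c ∈ K l, ∀ N, eval c (Φ N) ≠ 0) →
        ∃ φ : ℝ → ℝ, Grows φ ∧ ∀ l, ∀ c ∈ K l, AllConstIn G φ Z c := by
    intro K hK hKΦ
    obtain ⟨φ, hφ, h⟩ := slow_gen G d Z K hK fun l c hc b hb P hPG hP =>
      hΦ c (hKΦ l c hc) b hb P hPG hP
    refine ⟨_, grows_min hφ, fun l c hc f hf hs hfG hfZ hf0 => ?_⟩
    have h2 := h l c hc (fun i => eval (f 0) (form c i)) (fun i hi => hfZ i hi 0) f hf
      (slow_mono (fun r => min_le_left _ _) hs) hfG (fun i z => by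
        by_cases hi : i ∈ Z
        · rw [hfZ i hi z, hfZ i hi 0]
        · exact poly_const hf hs (form c i) (hf0 i hi) z)
    intro z w j k
    by_contra hne
    exact h2 ⟨z, w, j, k, hne⟩
  refine ⟨Φ, hΦ0, h1, ?_⟩
  obtain ⟨K, hK1, hK2, hK3⟩ := closed_cover {c : Ix n d → ℂ | ∀ N, eval c (Φ N) ≠ 0} (by
    have h2 : {c : Ix n d → ℂ | ∀ N, eval c (Φ N) ≠ 0} =
        ⋂ N, {c : Ix n d → ℂ | eval c (Φ N) = 0}ᶜ := by
      ext c
      simp
    rw [h2]
    exact MeasurableSet.iInter fun N =>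
      (isClosed_eq (MvPolynomial.continuous_eval (Φ N)) continuous_const).measurableSet.compl) (by
    have h2 : {c : Ix n d → ℂ | ∀ N, eval c (Φ N) ≠ 0}ᶜ ⊆
        ⋃ N, {c : Ix n d → ℂ | eval c (Φ N) = 0} := by
      intro c hc
      by_contra hcon
      refine hc fun N hN => hcon (Set.mem_iUnion.2 ⟨N, hN⟩)
    exact measure_mono_null h2 (measure_iUnion_null fun N =>
      Pool.Agent.R845.US.poly_null (Φ N) (hΦ0 N)))
  obtain ⟨φ, hφ, h⟩ := h1 K hK1 fun l c hc => hK2 l hc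
  refine ⟨φ, hφ, ?_⟩
  filter_upwards [hK3] with c hc
  obtain ⟨l, hl⟩ := hc
  exact h l c hl

end Pool.Agent.N634.SH
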