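import Pool.Agent.N634.SH.Base
import Pool.Agent.N634.SH.Cover
import Pool.Agent.N634.SH.Unit

/-!
Entire curves of slow growth in general complete intersections, with a boundary.
-/

set_option autoImplicit false

namespace Pool.Agent.N634.SH

open MvPolynomial MeasureTheory Filter Topology
open Pool.Agent.R871.SG

variable {n q : ℕ} {d : Fin q → ℕ}

/-- All entire curves of the growth `φ`, given by entire functions `f`, in the complement of the
hypersurfaces `F_i = 0`, `i` not in `Z`, in the intersection of the hypersurfaces `F_i = 0`, `i` in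
`Z`, are constant; `F` are the forms with the coefficients `c`. -/
def AllConst (φ : ℝ → ℝ) (Z : Finset (Fin q)) (c : Ix n d → ℂ) : Prop :=
  ∀ f : ℂ → Fin (n + 1) → ℂ, Differentiable ℂ f → Slow φ f →
    (∀ i ∈ Z, ∀ z, eval (f z) (form c i) = 0) → (∀ i ∉ Z, ∀ z, eval (f z) (form c i) ≠ 0) →
    ∀ z w j k, f z j * f w k = f z k * f w j

theorem main (n : ℕ) (d : Fin q → ℕ) (Z : Finset (Fin q)) (hZ : 2 * n + 1 ≤ ∑ i, d i + Z.card) :
    ∃ Φ : ℕ → MvPolynomial (Ix n d) ℂ, (∀ N, Φ N ≠ 0) ∧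
      (∀ K : ℕ → Set (Ix n d → ℂ), (∀ l, IsClosed (K l)) →
        (∀ l, ∀ c ∈ K l, ∀ N, eval c (Φ N) ≠ 0) →
        ∃ φ : ℝ → ℝ, Grows φ ∧ ∀ l, ∀ c ∈ K l, AllConst φ Z c) ∧
      ∃ φ : ℝ → ℝ, Grows φ ∧ ∀ᵐ c : Ix n d → ℂ, AllConst φ Z c := by
  classical
  obtain ⟨Φ, hΦ0, hΦ⟩ := good_exists n d Z hZ
  have h1 : ∀ K : ℕ → Set (Ix n d → ℂ), (∀ l, IsClosed (K l)) →
        (∀ l, ∀ c ∈ K l, ∀ N, eval c (Φ N) ≠ 0) →
        ∃ φ : ℝ → ℝ, Grows φ ∧ ∀ l, ∀ c ∈ K l, AllConst φ Z c := by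
    intro K hK hKΦ
    obtain ⟨φ, hφ, h⟩ := slow_closed n d Z K hK fun l c hc b hb P hP =>
      hΦ c (hKΦ l c hc) b hb P hP
    refine ⟨_, grows_min hφ, fun l c hc f hf hs hfZ hf0 => ?_⟩
    have h2 := h l c hc (fun i => eval (f 0) (form c i)) (fun i hi => hfZ i hi 0) f hf
      (slow_mono (fun r => min_le_left _ _) hs) (fun i z => by
        by_cases hi : i ∈ Z
        · rw [hfZ i hi z, hfZ i hi 0]
        · exact poly_const hf hs (form c i) (hf0 i hi) z)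
    intro z w j k
    by_contra hne
    exact h2 ⟨z, w, j, k, hne⟩
  refine ⟨Φ, hΦ0, h1, ?_⟩
  obtain ⟨K, hK1, hK2, hK3⟩ := closed_cover {c : Ix n d → ℂ | ∀ N, eval c (Φ N) ≠ 0} (by
    have h2 : {c : Ix n d → ℂ | ∀ N, eval c (Φ N) ≠ 0} =
        ⋂ N, {c : Ix n d → ℂ | eval c (Φ N) = 0}ᶜ := by
      ext c
      simp
    rw [h2]
    exact MeasurableSet.iInter fun N =>
      (isClosed_eq (MvPolynomial.continuous_eval (Φ N)) continuous_const).measurableSet.compl) (by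
    have h2 : {c : Ix n d → ℂ | ∀ N, eval c (Φ N) ≠ 0}ᶜ ⊆
        ⋃ N, {c : Ix n d → ℂ | eval c (Φ N) = 0} := by
      intro c hc
      by_contra hcon
      refine hc fun N hN => hcon (Set.mem_iUnion.2 ⟨N, hN⟩)
    exact measure_mono_null h2 (measure_iUnion_null fun N =>
      Pool.Agent.R845.US.poly_null (Φ N) (hΦ0 N)))
  obtain ⟨φ, hφ, h⟩ := h1 K hK1 fun l c hc => hK2 l hc
  refine ⟨φ, hφ, ?_⟩
  filter_upwards [hK3] with c hc
  obtain ⟨l, hl⟩ := hc
  exact h l c hl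

end Pool.Agent.N634.SH
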